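import Pool.Agent.H25.MZ.All3

/-!
# Multiplicities of zeros of Artin L-functions (MP_347b49_nt)

Let `Λ_i` be Artin `L`-functions over `ℚ` of degrees `n_i` with rational valued characters, or
`L`-functions of primitive Dirichlet characters (`n_i = 1`), let `c_i` be integers (of any sign) and
`τ_i` real numbers. Suppose that `0 < ∑ c_i n_i < m`. Then the order of
`∏ Λ_i(s + iτ_i) ^ c_i` is not a natural multiple of `m` at many points: for every `κ ≤ 1` with
`κ > (∑ c_i n_i) / m` there are `A` and `T₀` such that for `T ≥ T₀` and `T^κ ≤ W ≤ T` there are at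
least `W / (log T)^A` such points with an imaginary part in `[T, T + W]`.

The theorem is unconditional. The proof contains Hecke's functional equation of the Dedekind zeta
function of every number field and Artin's induction theorem; Artin's conjecture is not needed.

Lean proof: helper25 (Defs, Targets, CO3, FI3, FG3), helper34 (ZC, CL3), helper39 (MV, MS), helper77
(RO, RB, YR), and the modules of the theorem DilatedZeros.
-/

set_option autoImplicit false

open Complex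

namespace Pool.Agent.Results.MP_347b49_nt.Multiplicities

open Pool.Agent.H25.DL

/-- The character of `R` has rational values. -/
def RationalCharacter (R : ArtinRep) : Prop :=
  ∀ g : R.K ≃ₐ[ℚ] R.K, ∃ q : ℚ, LinearMap.trace ℂ R.V (R.rho g) = q

/-- `Λ` is the Artin `L`-function of `R`: it is meromorphic on the complex plane and given by the
Euler product `∏_p det (1 - p^{-s} Frob_p | V^{I_p})^{-1}` for `Re s > 1`. -/
def IsArtinLFunction (R : ArtinRep) (Λ : ℂ → ℂ) : Prop :=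
  (∀ s : ℂ, MeromorphicAt Λ s) ∧ ∀ s : ℂ, 1 < s.re → HasProd (fun p => R.euler p s) (Λ s)

/-- `Λ` is the Artin `L`-function of a representation of dimension `n` with rational character, or
`n = 1` and `Λ` is the `L`-function of a primitive Dirichlet character. -/
def Member (Λ : ℂ → ℂ) (n : ℕ) : Prop :=
  (∃ R : ArtinRep, RationalCharacter R ∧ IsArtinLFunction R Λ ∧ R.dim = n) ∨
    ∃ (q : ℕ) (_ : NeZero q) (χ : DirichletCharacter ℂ q), χ.IsPrimitive ∧ Λ = χ.LFunction ∧ n = 1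

/-- the order of `∏ Λ_i(s + iτ_i) ^ c_i` at `s` -/
noncomputable def order {k : ℕ} (Λ : Fin k → ℂ → ℂ) (c : Fin k → ℤ) (τ : Fin k → ℝ) (s : ℂ) : ℤ :=
  ∑ i, c i * (meromorphicOrderAt (Λ i) (s + τ i * I)).untop₀

theorem result {k : ℕ} (n : Fin k → ℕ) (Λ : Fin k → ℂ → ℂ) (hΛ : ∀ i, Member (Λ i) (n i))
    (c : Fin k → ℤ) (τ : Fin k → ℝ) (m : ℕ) (κ : ℝ) (d : ℤ) (hd : ∑ i, c i * (n i : ℤ) = d)
    (hd0 : 0 < d) (hdm : d < m) (hκ : (d : ℝ) / m < κ) (hκ1 : κ ≤ 1) :
    ∃ A T₀ : ℝ, ∀ T W : ℝ, T₀ ≤ T → T ^ κ ≤ W → W ≤ T → ∃ Z : Finset ℂ,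
      W / Real.log T ^ A ≤ Z.card ∧
      ∀ s ∈ Z, T ≤ s.im ∧ s.im ≤ T + W ∧ ¬ ∃ j : ℕ, order Λ c τ s = (m : ℤ) * j := by
  subst hd
  have good : ∀ (F : ℂ → ℂ) (N : ℕ), Member F N → Pool.Agent.H25.HK.Good F N := by
    rintro F N (⟨R, h1, h2, rfl⟩ | ⟨q, hq, χ, h1, rfl, rfl⟩)
    · exact Pool.Agent.H25.HK.final_artin R F h1 h2
    · exact Pool.Agent.H25.HK.final_dirichlet ⟨q, hq, χ, h1⟩
  obtain ⟨A, T₀, -, h⟩ := Pool.Agent.H25.MZ.T_FG3_proved k n Λ c τ m κ
    (fun i => good _ _ (hΛ i)) hd0 hdm hκ hκ1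
  exact ⟨A, T₀, h⟩

end Pool.Agent.Results.MP_347b49_nt.Multiplicities
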